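import Pool.Agent.Lib_helper1.G5T.Defs
import Pool.Agent.Lib_helper32.G5.S1c

/-!
# MP_022ed3_co, triangular hull: module S1
-/

set_option autoImplicit false

namespace Pool.Agent.G5.Tri

open Pool.Agent.G5.Lower Pool.Agent.G5.Planar Pool.Agent.G5.Core Pool.Agent.G5.Quad
  Pool.Agent.G5.Frame Pool.Agent.G5.Coord

/-- S1 -/
theorem s1_false {s : ℝ} {m : ℕ} {P T B C : Finset (ℝ × ℝ)} {a b c v L R τ h : ℝ × ℝ}
    (hc : Cls s m P T {a} B C a b c) (hd : S1D s T B C a b c v L R τ h) : False := by
  obtain ⟨al, be, ga, hcr⟩ := exists_crd hc.set.conf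
  have haT : a ∉ T := fun hh =>
    Finset.disjoint_left.1 hc.TA hh (Finset.mem_singleton_self a)
  have haB : a ∉ B := fun hh =>
    Finset.disjoint_left.1 hc.AB (Finset.mem_singleton_self a) hh
  have haC : a ∉ C := fun hh =>
    Finset.disjoint_left.1 hc.CA hh (Finset.mem_singleton_self a)
  have hbT : b ∉ T := fun hh => Finset.disjoint_left.1 hc.TB hh hc.bB
  have hcT : c ∉ T := fun hh => Finset.disjoint_left.1 hc.TC hh hc.cC
  have na : ∀ t ∈ T, t ≠ a := by rintro t ht rfl; exact haT ht
  have nb : ∀ t ∈ T, t ≠ b := by rintro t ht rfl; exact hbT ht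
  have nc : ∀ t ∈ T, t ≠ c := by rintro t ht rfl; exact hcT ht
  have hcB : c ∉ B := fun hh => Finset.disjoint_left.1 hc.BC hh hc.cC
  have hbC : b ∉ C := fun hh => Finset.disjoint_left.1 hc.BC hc.bB hh
  refine S1.S1D.false (s := s) (m := m) (P := P) (T := T) (B := B) (C := C) (a := a) (b := b)
    (c := c) (v := v) (L := L) (R := R) (tau := τ) (hh := h) (al := al) (be := be) (ga := ga) ?_
  refine
    { cr := hcr
      thin := hc.set.thin
      card := hc.set.card
      hm := by have := hc.set.hm; omega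
      TP := hc.subT
      BP := hc.subB
      CP := hc.subC
      Tm := hc.cardT
      cover := ?_
      aT := haT
      aB := haB
      aC := haC
      bB := hc.bB
      cC := hc.cC
      B1 := ?_
      C1 := ?_
      vT := hd.hv
      LT := hd.hL
      RT := hd.hR
      tT := hd.hτ
      hT := hd.hh
      d1 := ?_
      LR := hd.LR
      d2 := hd.eLR
      d2B := hd.rB
      d2C := hd.rC
      d3 := ?_
      tv := hd.τv
      d4 := ?_
      d4B := hd.τtan
      hR := hd.hR'
      d5 := ?_
      d5C := hd.hC }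
  · intro z hz
    rcases hc.cover z hz with k | k | k | k
    · exact Or.inr (Or.inl k)
    · exact Or.inl (Finset.mem_singleton.1 k)
    · exact Or.inr (Or.inr (Or.inl k))
    · exact Or.inr (Or.inr (Or.inr k))
  · intro z hz t ht
    have h1 := hc.nearB z hz t ht
    have hza : z ≠ a := by rintro rfl; exact haB hz
    have hzc : z ≠ c := by rintro rfl; exact hcB hz
    constructor
    · rw [hcr.al_lt z (hc.subB hz) t (hc.subT ht) hza (na t ht), D_swap']
      linarith [h1.2]
    · rw [hcr.ga_lt z (hc.subB hz) t (hc.subT ht) hzc (nc t ht), D_swap']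
      linarith [h1.1]
  · intro z hz t ht
    have h1 := hc.nearC z hz t ht
    have hza : z ≠ a := by rintro rfl; exact haC hz
    have hzb : z ≠ b := by rintro rfl; exact hbC hz
    constructor
    · rw [hcr.al_lt t (hc.subT ht) z (hc.subC hz) (na t ht) hza]
      exact h1.1
    · rw [hcr.be_lt z (hc.subC hz) t (hc.subT ht) hzb (nb t ht), D_swap']
      linarith [h1.2]
  · intro t ht
    constructor
    · by_cases htv : t = v
      · rw [htv]
      · exact ((hcr.al_lt v (hc.subT hd.hv) t (hc.subT ht) (na v hd.hv) (na t ht)).2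
          (hd.vmin t ht htv)).le
    · by_cases htv : t = R
      · rw [htv]
      · exact ((hcr.al_lt t (hc.subT ht) R (hc.subT hd.hR) (na t ht) (na R hd.hR)).2
          (hd.Rmax t ht htv)).le
  · rcases hd.vL with k | k
    · exact Or.inl k
    · exact Or.inr ⟨(hcr.be_lt L (hc.subT hd.hL) v (hc.subT hd.hv) (nb L hd.hL) (nb v hd.hv)).2
        k.2, k.1⟩
  · intro t ht
    by_cases htv : t = τ
    · rw [htv]
    · exact ((hcr.be_lt t (hc.subT ht) τ (hc.subT hd.hτ) (nb t ht) (nb τ hd.hτ)).2
        (hd.τmax t ht htv)).le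
  · exact (hcr.ga_lt R (hc.subT hd.hR) h (hc.subT hd.hh) (nc R hd.hR) (nc h hd.hh)).2 hd.hga

end Pool.Agent.G5.Tri
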